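import Mathlib
import Pool.Agent.TH117.BL.PoleDefs
import Pool.Agent.TH170.GS.Defs

/-!
# Varieties over finite fields whose cohomology comes from abelian varieties with given slope types
-/

set_option autoImplicit false

namespace Pool.Agent.V5helper98.HC

open Module Pool.Agent.W495.TA Pool.Agent.TH117.BL Pool.Agent.TH170

noncomputable section

/-- A part of the cohomology group `V = H^{2 i}(X, i)`, with complex coefficients, of a variety `X` over
the field `𝔽` with `p ^ n` elements that comes from an abelian variety `Y` over a subfield, considered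
over `𝔽`. Here `Fr` is the Frobenius endomorphism of `V` and `A ⊆ V` is the subspace spanned by the
classes of algebraic cycles on `X`. Each factor of the abelian variety `Y` is supersingular or has a
Frobenius endomorphism some power of which is a Weil number in one of the fields `K i` with the
slopes given by the types `Φ` and the weights `M` (`OfTypes`). The homomorphism `Γ : H^{2 m}(Y, m) → V`
is given by an algebraic correspondence: this is used only for Tate classes that belong to the system
`Alg`. -/
structure TPiece {p : ℕ} [Fact p.Prime] (ν : PadicAlgCl p ≃+* ℂ) {I : Type} (K : I → Type)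
    [∀ i, Field (K i)] (M : ∀ i, (K i →+* ℂ) → ℤ) (Φ : ∀ i, Set (K i →+* ℂ)) (n : ℕ) {V : Type}
    [AddCommGroup V] [Module ℂ V] (Fr : V →ₗ[ℂ] V) (A : Submodule ℂ V) where
  Y : RedAV p ν
  types : GS.OfTypes K M Φ Y
  s : ℕ
  pos : 0 < s
  degree : Y.a * s = n
  m : ℕ
  Γ : Coh Y (2 * m) →ₗ[ℂ] V
  equivariant : ∀ f, Γ ((frobCoh Y (2 * m) ^ s) f) = ((p : ℂ) ^ n) ^ m • Fr (Γ f)
  algebraic : ∀ f, (frobCoh Y (2 * m) ^ s) f = ((p : ℂ) ^ n) ^ m • f →
    Alg ℂ Y (Fin (2 * m)) f → Γ f ∈ A

end

end Pool.Agent.V5helper98.HC
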