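import Mathlib
import Pool.Agent.Q29.EP.Rows
import Pool.Agent.TH170.GS.Rel
import Pool.Agent.TH117.BL.Main
import Pool.Agent.V5helper90.TB.Cover

/-!
# Jannsen's conjecture for slope types without relations
-/

set_option autoImplicit false

namespace Pool.Agent.V5helper98.HC

open NumberField Module Pool.Agent.H204R3.CM Pool.Agent.H977R3.CM Pool.Agent.TH170
  Pool.Agent.Q29.EP Pool.Agent.V5helper90.TB

open Pool.Agent.Q29.DP (notMem_degTypes_of_noRelations)

theorem jannsen_without_relations :
    WithoutRelations fun p _ ν _ _ K _ _ _ M Φ => JannsenHolds p ν (GS.OfTypes K M Φ) := by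
  intro p _ ν I _ K _ _ _ M Φ hind hMc hΦ hno
  refine jannsen_of fun Y hY Ω _ _ _ m f hf => ?_
  exact Pool.Agent.Y137.SF.AlgS.of_alg (by simp) (by simp) (TH117.BL.elementary Y
    (GS.elementary_of_types hind hMc hΦ (fun i => notMem_degTypes_of_noRelations (hno i)) hY) Ω Y
    (fun k => Or.inr ⟨k, RingHom.id _, 1, 1, one_pos, one_pos, rfl, rfl⟩) 1 m one_pos f hf)

end Pool.Agent.V5helper98.HC
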